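import Pool.Agent.Lib_MP_b8ab30_ins.Weak

/-!
# MP_b8ab30_lc: no strongly universal countable Borel equivalence relation, weak form of universality

For every countable Borel equivalence relation `E` on a standard Borel space and every `E`-invariant Borel probability measure `μ`
(ergodicity is not needed) there is an `E`-invariant Borel set `A` with `μ A = 1` such that the restriction of `E` to `A` is not even
weakly universal; more precisely some countable Borel equivalence relation has no countable-to-one Borel homomorphism to it.
-/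

set_option autoImplicit false

open MeasureTheory

namespace Pool.Agent.Results.MP_b8ab30_lc.NotWeaklyUniversal

universe u

/-- `E` is a countable Borel equivalence relation: a Borel subset of the square, an equivalence relation, all classes countable. -/
def IsCBER {X : Type u} [MeasurableSpace X] (E : X → X → Prop) : Prop :=
  MeasurableSet {p : X × X | E p.1 p.2} ∧ Equivalence E ∧ ∀ x, {y | E x y}.Countable

/-- `E` is a universal countable Borel equivalence relation: every countable Borel equivalence relation `F` on a standard Borel space `Y`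
has a Borel reduction `f` to `E`, that is `F y z ↔ E (f y) (f z)`.  (Every standard Borel space is isomorphic to one in `Type`.) -/
def IsUniversal {X : Type u} [MeasurableSpace X] (E : X → X → Prop) : Prop :=
  IsCBER E ∧ ∀ (Y : Type) [MeasurableSpace Y] [StandardBorelSpace Y] (F : Y → Y → Prop), IsCBER F →
    ∃ f : Y → X, Measurable f ∧ ∀ y z, F y z ↔ E (f y) (f z)

/-- `E` is weakly universal: it contains a universal countable Borel equivalence relation on the same space. -/
def IsWeaklyUniversal {X : Type u} [MeasurableSpace X] (E : X → X → Prop) : Prop :=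
  ∃ E' : X → X → Prop, IsUniversal E' ∧ ∀ x y, E' x y → E x y

/-- `μ` is `E`-invariant: `μ (γ(B)) = μ(B)` for all Borel sets `B` and all Borel bijections `γ : X → X` whose graph is contained in `E`. -/
def IsInvariantMeasure {X : Type u} [MeasurableSpace X] (E : X → X → Prop) (μ : Measure X) : Prop :=
  ∀ γ : X → X, Measurable γ → Function.Bijective γ → (∀ x, E x (γ x)) → ∀ B, MeasurableSet B → μ (γ '' B) = μ B

open Pool.MPb8ab30 in
private theorem cber_of {X : Type} [MeasurableSpace X] {E : X → X → Prop} (h : IsCBER E) : CBER E :=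
  ⟨h.1, h.2.1, h.2.2⟩

open Pool.MPb8ab30 in
/-- the statement for spaces in `Type` -/
private theorem zero {X : Type} [MeasurableSpace X] [StandardBorelSpace X] (E : X → X → Prop) (hE : IsCBER E)
    (μ : Measure X) [IsProbabilityMeasure μ] (hμ : ∀ S : X ≃ᵐ X, (∀ x, E x (S x)) → MeasurePreserving S μ μ) :
    ∃ A : Set X, MeasurableSet A ∧ (∀ x y, E x y → (x ∈ A ↔ y ∈ A)) ∧ μ A = 1 ∧
      ∃ F : (ℕ → Bool) → (ℕ → Bool) → Prop, IsCBER F ∧
        ¬ ∃ f : (ℕ → Bool) → X, Measurable f ∧ (∀ y, f y ∈ A) ∧ (∀ x, (f ⁻¹' {x}).Countable) ∧ ∀ y z, F y z → E (f y) (f z) := by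
  by_contra hcon
  have hnc : ¬ Countable Y := by
    intro h
    have h1 : (Set.univ : Set T).Countable := by
      have : Function.Injective fun c : T => ((c, 0) : Y) := fun a b hab => (Prod.mk.inj hab).1
      haveI := this.countable
      exact Set.countable_univ
    exact uncountable_nonTor (h1.mono (Set.subset_univ _))
  let e : Y ≃ᵐ (ℕ → Bool) := PolishSpace.measurableEquivNatBoolOfNotCountable hnc
  refine main_weak μ E (cber_of hE) hμ ?_
  intro c A hA hAi hA1
  by_contra hno
  refine hcon ⟨A, hA, hAi, hA1, fun y z => F c (e.symm y) (e.symm z), ⟨?_, ?_, ?_⟩, ?_⟩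
  · have h1 : Measurable fun p : (ℕ → Bool) × (ℕ → Bool) => (e.symm p.1, e.symm p.2) :=
      (e.symm.measurable.comp measurable_fst).prodMk (e.symm.measurable.comp measurable_snd)
    exact h1 (cber_F c).meas
  · exact ⟨fun y => (cber_F c).equiv.refl _, fun h => (cber_F c).equiv.symm h, fun h h' => (cber_F c).equiv.trans h h'⟩
  · intro y
    exact ((cber_F c).count (e.symm y)).preimage e.symm.injective
  · rintro ⟨f, hf, hfA, hfc, hfE⟩
    refine hno ⟨fun y => f (e y), hf.comp e.measurable, fun y => hfA _, fun y z h => hfE _ _ ?_, fun x => ?_⟩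
    · simpa using h
    · exact (hfc x).preimage e.injective

/-- For every countable Borel equivalence relation `E` on a standard Borel space `X` and every `E`-invariant Borel probability measure `μ`
there is an `E`-invariant Borel set `A` with `μ A = 1` such that the restriction of `E` to `A` is not weakly universal, and there is a
countable Borel equivalence relation `F` on the Cantor space without countable-to-one Borel homomorphisms to the restriction. -/
theorem result {X : Type u} [MeasurableSpace X] [StandardBorelSpace X] (E : X → X → Prop) (hE : IsCBER E)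
    (μ : Measure X) [IsProbabilityMeasure μ] (hμ : IsInvariantMeasure E μ) :
    ∃ A : Set X, MeasurableSet A ∧ (∀ x y, E x y → (x ∈ A ↔ y ∈ A)) ∧ μ A = 1 ∧
      (¬ IsWeaklyUniversal fun a b : A => E a b) ∧
      ∃ F : (ℕ → Bool) → (ℕ → Bool) → Prop, IsCBER F ∧
        ¬ ∃ f : (ℕ → Bool) → A, Measurable f ∧ (∀ a, (f ⁻¹' {a}).Countable) ∧ ∀ y z, F y z → E (f y) (f z) := by
  have hemb := measurableEmbedding_embeddingReal X
  haveI : StandardBorelSpace (Set.range (embeddingReal X)) := hemb.measurableSet_range.standardBorel
  set e : X ≃ᵐ Set.range (embeddingReal X) := hemb.equivRange with he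
  haveI : IsProbabilityMeasure (μ.map e) := Measure.isProbabilityMeasure_map e.measurable.aemeasurable
  obtain ⟨A₀, hA₀, hA₀i, hA₀1, F, hF, hno⟩ := zero (fun s t => E (e.symm s) (e.symm t)) (by
    refine ⟨?_, ⟨fun y => hE.2.1.refl _, fun h => hE.2.1.symm h, fun h h' => hE.2.1.trans h h'⟩, fun s => ?_⟩
    · have h1 : Measurable fun p : Set.range (embeddingReal X) × Set.range (embeddingReal X) => (e.symm p.1, e.symm p.2) :=
        (e.symm.measurable.comp measurable_fst).prodMk (e.symm.measurable.comp measurable_snd)
      exact h1 hE.1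
    · exact (hE.2.2 (e.symm s)).preimage e.symm.injective) (μ.map e) (by
    intro S hS
    refine ⟨S.measurable, ?_⟩
    refine Measure.ext fun C hC => ?_
    rw [Measure.map_apply S.measurable hC, Measure.map_apply e.measurable (S.measurable hC), Measure.map_apply e.measurable hC]
    have hb : Function.Bijective fun x => e.symm (S (e x)) :=
      e.symm.bijective.comp (S.bijective.comp e.bijective)
    have h1 := hμ (fun x => e.symm (S (e x))) (e.symm.measurable.comp (S.measurable.comp e.measurable)) hb
      (fun x => by simpa using hS (e x)) (e ⁻¹' (S ⁻¹' C)) (e.measurable (S.measurable hC))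
    rw [← h1]
    congr 1
    ext x
    constructor
    · rintro ⟨z, hz, rfl⟩
      simpa using hz
    · intro hx
      obtain ⟨z, hz⟩ := hb.2 x
      refine ⟨z, ?_, hz⟩
      have hz' : S (e z) = e x := by
        rw [← hz]
        simp
      show S (e z) ∈ C
      rw [hz']
      exact hx)
  have hAm : MeasurableSet (e ⁻¹' A₀) := e.measurable hA₀
  have hno' : ¬ ∃ f : (ℕ → Bool) → (e ⁻¹' A₀ : Set X), Measurable f ∧ (∀ a, (f ⁻¹' {a}).Countable) ∧
      ∀ y z, F y z → E (f y) (f z) := by
    rintro ⟨f, hf, hfc, hfE⟩
    refine hno ⟨fun y => e (f y), e.measurable.comp (measurable_subtype_coe.comp hf), fun y => (f y).2, fun s => ?_,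
      fun y z h => by simpa using hfE y z h⟩
    have hinj : Function.Injective fun a : (e ⁻¹' A₀ : Set X) => e a := fun a b hab => Subtype.ext (e.injective hab)
    by_cases hs : ∃ a : (e ⁻¹' A₀ : Set X), e a = s
    · obtain ⟨a, rfl⟩ := hs
      refine (hfc a).mono ?_
      intro y hy
      exact hinj hy
    · have h0 : (fun y => e (f y)) ⁻¹' {s} = ∅ := by
        ext y
        constructor
        · intro hy
          exact (hs ⟨f y, hy⟩).elim
        · intro hy
          exact hy.elim
      rw [h0]
      exact Set.countable_empty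
  refine ⟨e ⁻¹' A₀, hAm, fun x y hxy => ?_, ?_, ?_, F, hF, hno'⟩
  · have := hA₀i (e x) (e y) (by simpa using hxy)
    exact this
  · rw [← Measure.map_apply e.measurable hA₀]
    exact hA₀1
  · rintro ⟨E', ⟨hE', hU⟩, hsub⟩
    obtain ⟨f, hf, hfE⟩ := hU (ℕ → Bool) F hF
    refine hno' ⟨f, hf, fun a => ?_, fun y z h => hsub _ _ ((hfE y z).1 h)⟩
    rcases (f ⁻¹' {a}).eq_empty_or_nonempty with h0 | ⟨y, hy⟩
    · rw [h0]
      exact Set.countable_empty
    · refine (hF.2.2 y).mono ?_
      intro z hz
      rw [Set.mem_preimage, Set.mem_singleton_iff] at hy hz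
      refine (hfE y z).2 ?_
      rw [hy, hz]
      exact hE'.2.1.refl a

end Pool.Agent.Results.MP_b8ab30_lc.NotWeaklyUniversal
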